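import Pool.Agent.Q171.Core.Main

set_option autoImplicit false

open Metric Set Filter Topology
open scoped ContDiff

/-!
# A relatively compact maximal component of the core of a domain in `ℂ²`
-/

namespace Pool.Agent.Results.MP_425ff5_an.CompactComponent

open Pool.Agent.Q171.Core

/-- `l` is contained in the core of `Ω` and every smooth plurisubharmonic function on `Ω` that is
bounded from above is constant on `l` -/
def InL (Ω l : Set (ℂ × ℂ)) : Prop :=
  l ⊆ core Ω ∧ ∀ φ : ℂ × ℂ → ℝ, BddPsh Ω φ → ∀ p ∈ l, ∀ q ∈ l, φ p = φ q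

/-- `l` is a (nonempty) maximal component of the core of `Ω` -/
def MaximalComponent (Ω l : Set (ℂ × ℂ)) : Prop :=
  l.Nonempty ∧ InL Ω l ∧ ∀ m : Set (ℂ × ℂ), InL Ω m → l ⊆ m → m = l

/-- There is a domain `Ω` in the Stein manifold `ℂ²` whose core is nonempty and is its only
maximal component, and this component has compact closure in `ℂ²`. -/
theorem result : ∃ Ω : Set (ℂ × ℂ), IsOpen Ω ∧ IsConnected Ω ∧
    MaximalComponent Ω (core Ω) ∧ IsCompact (closure (core Ω)) := by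
  set Ω : Set (ℂ × ℂ) := {p | p ∈ Om ∧ ¬ (p.2 = 0 ∧ 1 ≤ ‖p.1‖)} with hΩ
  have hΩo : IsOpen Ω := by
    apply isOpen_om.inter
    have hcl : IsClosed {p : ℂ × ℂ | p.2 = 0 ∧ 1 ≤ ‖p.1‖} :=
      (isClosed_eq continuous_snd continuous_const).inter
        (isClosed_le continuous_const (continuous_norm.comp continuous_fst))
    exact hcl.isOpen_compl
  have hsub : ∀ p ∈ Om, p.2 ≠ 0 → p ∈ Ω := fun p hp h => ⟨hp, fun hcon => h hcon.1⟩
  have hcore : core Ω ⊆ {p | p.2 = 0 ∧ ‖p.1‖ < 1} := by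
    intro p hp
    have h0 := core_subset_line (fun q hq => hq.1) hp
    have h1 : p ∈ Ω := hp.1
    refine ⟨h0, ?_⟩
    by_contra hcon
    push Not at hcon
    exact h1.2 ⟨h0, hcon⟩
  have hmem : ∀ p ∈ core Ω, p = (p.1, 0) := fun p hp => Prod.ext rfl (hcore hp).1
  refine ⟨Ω, hΩo, connected_between (fun q hq => hq.1) hsub, ⟨?_, ⟨subset_rfl, ?_⟩, ?_⟩, ?_⟩
  · refine ⟨((0 : ℂ), (0 : ℂ)), line_in_core hΩo hsub ⟨?_, ?_⟩⟩
    · show ‖(0 : ℂ)‖ ^ 2 * (1 + ‖(0 : ℂ)‖ ^ 2) < 1
      simp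
    · rintro ⟨_, h⟩
      norm_num at h
  · intro φ hφ p hp q hq
    have hpD : (p.1, (0 : ℂ)) ∈ Ω := hmem p hp ▸ hp.1
    have hqD : (q.1, (0 : ℂ)) ∈ Ω := hmem q hq ▸ hq.1
    rw [hmem p hp, hmem q hq]
    exact le_antisymm (const_on_line hΩo hsub hφ hpD hqD) (const_on_line hΩo hsub hφ hqD hpD)
  · intro m hm hle
    exact subset_antisymm hm.1 hle
  · apply Metric.isCompact_of_isClosed_isBounded isClosed_closure
    apply Bornology.IsBounded.closure
    rw [isBounded_iff_forall_norm_le]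
    refine ⟨1, fun p hp => ?_⟩
    have h := hcore hp
    rw [Prod.norm_def, h.1]
    simp only [norm_zero]
    exact max_le h.2.le zero_le_one

end Pool.Agent.Results.MP_425ff5_an.CompactComponent
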